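import Pool.Agent.H98.AM.Targets

/-! Basic facts on the discriminant polynomials (helper80). -/

open Polynomial

namespace Pool.Agent.H80.AM

open Pool.Agent.H98.AM

theorem disc_prod {s : ℕ} {D : ℝ[X]} (h : Disc s D) {t : ℝ} (ht : |t| ≤ 4) :
    ∃ r : Fin s → ℝ, D - C t = ∏ i, (X - C (r i)) := by
  obtain ⟨r, hr⟩ := h.rr t ht
  refine ⟨r, ?_⟩
  apply Polynomial.funext
  intro x
  have h1 := hr (x : ℂ)
  have h2 : aeval (x : ℂ) D = ((D.eval x : ℝ) : ℂ) := by
    have := Polynomial.aeval_algebraMap_apply (B := ℂ) (x : ℝ) D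
    simpa [Polynomial.coe_aeval_eq_eval] using this
  rw [h2] at h1
  rw [eval_sub, eval_C, eval_prod]
  have h3 : (((D.eval x - t : ℝ)) : ℂ) = ((∏ i, (x - r i) : ℝ) : ℂ) := by
    push_cast
    exact h1
  have h4 := Complex.ofReal_injective h3
  rw [h4]
  apply Finset.prod_congr rfl
  intro i _
  simp

theorem K_step {q : ℝ[X]} (r x : ℝ) :
    (((X - C r) * q).derivative.eval x) ^ 2
      - ((X - C r) * q).eval x * ((X - C r) * q).derivative.derivative.eval x
      = (q.eval x) ^ 2 + (x - r) ^ 2 *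
        ((q.derivative.eval x) ^ 2 - q.eval x * q.derivative.derivative.eval x) := by
  simp [derivative_mul]
  ring

theorem K_nonneg {ι : Type*} (S : Finset ι) (r : ι → ℝ) (x : ℝ) :
    0 ≤ ((∏ i ∈ S, (X - C (r i))).derivative.eval x) ^ 2
      - (∏ i ∈ S, (X - C (r i))).eval x * (∏ i ∈ S, (X - C (r i))).derivative.derivative.eval x := by
  classical
  induction S using Finset.induction_on with
  | empty => simp
  | insert a S ha ih =>
    rw [Finset.prod_insert ha, K_step]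
    positivity

theorem K_pos {ι : Type*} (S : Finset ι) (hS : S.Nonempty) (r : ι → ℝ) (x : ℝ)
    (hx : (∏ i ∈ S, (X - C (r i))).eval x ≠ 0) :
    0 < ((∏ i ∈ S, (X - C (r i))).derivative.eval x) ^ 2
      - (∏ i ∈ S, (X - C (r i))).eval x * (∏ i ∈ S, (X - C (r i))).derivative.derivative.eval x := by
  classical
  obtain ⟨a, ha⟩ := hS
  rw [← Finset.mul_prod_erase S _ ha] at hx ⊢
  rw [K_step]
  have h1 := K_nonneg (S.erase a) r x
  have h2 : (∏ i ∈ S.erase a, (X - C (r i))).eval x ≠ 0 := by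
    intro h0
    apply hx
    rw [eval_mul, h0, mul_zero]
  positivity

theorem K_disc {s : ℕ} {D : ℝ[X]} (h : Disc s D) (hs : 1 ≤ s) {t : ℝ} (ht : |t| ≤ 4) {x : ℝ}
    (hx : D.eval x ≠ t) :
    0 < (D.derivative.eval x) ^ 2 - (D.eval x - t) * D.derivative.derivative.eval x := by
  obtain ⟨r, hr⟩ := disc_prod h ht
  have : Nonempty (Fin s) := ⟨⟨0, hs⟩⟩
  have h1 : (D - C t).eval x ≠ 0 := by
    rw [eval_sub, eval_C]
    exact sub_ne_zero.mpr hx
  have h2 := K_pos Finset.univ Finset.univ_nonempty r x (by rw [← hr]; exact h1)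
  rw [← hr] at h2
  simpa using h2

/-- critical values -/
theorem crit {s : ℕ} {D : ℝ[X]} (h : Disc s D) (hs : 1 ≤ s) {x : ℝ}
    (hx : D.derivative.eval x = 0) : 4 ≤ |D.eval x| := by
  by_contra hlt
  push Not at hlt
  obtain ⟨h1, h2⟩ := abs_lt.mp hlt
  set η := min (4 - D.eval x) (4 + D.eval x) with hη
  have hη0 : 0 < η := by
    rw [hη]
    exact lt_min (by linarith) (by linarith)
  have hη1 : η ≤ 4 - D.eval x := min_le_left _ _
  have hη2 : η ≤ 4 + D.eval x := min_le_right _ _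
  have a1 := K_disc h hs (t := D.eval x + η) (x := x)
    (abs_le.mpr ⟨by linarith, by linarith⟩) (by linarith [hη0] : D.eval x < D.eval x + η).ne
  have a2 := K_disc h hs (t := D.eval x - η) (x := x)
    (abs_le.mpr ⟨by linarith, by linarith⟩) (by linarith [hη0] : D.eval x - η < D.eval x).ne'
  rw [hx] at a1 a2
  nlinarith

theorem eval_der_der {s : ℕ} {D : ℝ[X]} (h : Disc s D) (hs : 1 ≤ s) {x : ℝ}
    (hx : D.derivative.eval x = 0) : D.eval x * D.derivative.derivative.eval x < 0 := by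
  have h1 := crit h hs hx
  have h0 : D.eval x ≠ 0 := by
    intro h2
    rw [h2] at h1
    norm_num at h1
  have h2 := K_disc h hs (t := 0) (x := x) (by norm_num) h0
  rw [hx] at h2
  linarith

theorem large {s : ℕ} {D : ℝ[X]} (h : Disc s D) (hs : 1 ≤ s) :
    ∃ M : ℝ, ∀ x : ℝ, M ≤ |x| → 4 ≤ |D.eval x| := by
  obtain ⟨r, hr⟩ := disc_prod h (t := 0) (by norm_num)
  rw [C_0, sub_zero] at hr
  refine ⟨(∑ i, |r i|) + 4, fun x hx => ?_⟩
  rw [hr, eval_prod, Finset.abs_prod]
  have h1 : ∀ i ∈ (Finset.univ : Finset (Fin s)), (4 : ℝ) ≤ |(X - C (r i)).eval x| := by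
    intro i _
    rw [eval_sub, eval_X, eval_C]
    have h2 : |r i| ≤ ∑ i, |r i| :=
      Finset.single_le_sum (f := fun i => |r i|) (fun j _ => abs_nonneg _) (Finset.mem_univ i)
    have h3 := abs_sub_abs_le_abs_sub x (r i)
    linarith
  refine le_trans ?_ (Finset.prod_le_prod (fun i _ => by norm_num) h1)
  calc (4 : ℝ) = 4 ^ 1 := by norm_num
    _ ≤ 4 ^ s := pow_le_pow_right₀ (by norm_num) hs
    _ = ∏ _i : Fin s, (4 : ℝ) := by simp

/-- D1 -/
theorem d1 : T_D1 := by
  intro s D h hs e he h0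
  have := crit h hs h0
  rw [he] at this
  norm_num at this

end Pool.Agent.H80.AM
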