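import Pool.Agent.H80.AM.Base

/-! Structure of the bands: T_D10 (helper80). -/

open Polynomial Set Filter Topology

namespace Pool.Agent.H80.AM

open Pool.Agent.H98.AM

theorem first_hit (g : ℝ → ℝ) (hg : Continuous g) (e x : ℝ) (hex : e ≤ x) (he : g e < 4)
    (hx : 4 ≤ g x) : ∃ b, e < b ∧ g b = 4 ∧ ∀ y, e ≤ y → y < b → g y < 4 := by
  have hc : IsCompact (Icc e x ∩ {y | 4 ≤ g y}) :=
    isCompact_Icc.inter_right (isClosed_le continuous_const hg)
  have hne : (Icc e x ∩ {y | 4 ≤ g y}).Nonempty := ⟨x, ⟨hex, le_refl x⟩, hx⟩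
  obtain ⟨b, ⟨⟨hb1, hb2⟩, hb3⟩, hb⟩ := hc.exists_isLeast hne
  have hb3' : 4 ≤ g b := hb3
  have hall : ∀ y, e ≤ y → y < b → g y < 4 := by
    intro y h1 h2
    by_contra h3
    push Not at h3
    have h4 : b ≤ y := hb ⟨⟨h1, h2.le.trans hb2⟩, h3⟩
    linarith
  have heb : e < b := by
    rcases hb1.eq_or_lt with h | h
    · rw [← h] at hb3'
      linarith
    · exact h
  refine ⟨b, heb, ?_, hall⟩
  obtain ⟨y, ⟨hy1, hy2⟩, hy3⟩ := intermediate_value_Icc hb1 hg.continuousOn ⟨he.le, hb3'⟩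
  rcases hy2.eq_or_lt with h | h
  · rw [← h]
    exact hy3
  · have := hall y hy1 h
    linarith

theorem two_hits {s : ℕ} {D : ℝ[X]} (h : Disc s D) (hs : 1 ≤ s) {x : ℝ} (hx : |D.eval x| < 4) :
    ∃ a b, a < x ∧ x < b ∧ |D.eval a| = 4 ∧ |D.eval b| = 4 ∧
      ∀ y ∈ Ioo a b, |D.eval y| < 4 := by
  obtain ⟨M, hM⟩ := large h hs
  have hc : Continuous fun y => |D.eval y| := D.continuous.abs
  obtain ⟨b, hb1, hb2, hb3⟩ := first_hit (fun y => |D.eval y|) hc x (max x |M|) (le_max_left _ _) hx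
    (hM _ (by
      have h1 := le_max_right x |M|
      have h2 := le_abs_self (max x |M|)
      have h3 := le_abs_self M
      linarith))
  obtain ⟨a, ha1, ha2, ha3⟩ := first_hit (fun y => |D.eval (-y)|) (hc.comp continuous_neg) (-x)
    (max (-x) |M|) (le_max_left _ _) (by simpa using hx)
    (hM _ (by
      have h1 := le_max_right (-x) |M|
      have h2 := le_abs_self (max (-x) |M|)
      have h3 := le_abs_self M
      rw [abs_neg]
      linarith))
  refine ⟨-a, b, by linarith, hb1, ha2, hb2, ?_⟩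
  rintro y ⟨hy1, hy2⟩
  rcases le_total x y with hxy | hxy
  · exact hb3 y hxy hy2
  · have := ha3 (-y) (by linarith) (by linarith)
    simpa using this

theorem mono_or {D : ℝ[X]} {a b : ℝ} (hab : a < b)
    (hd : ∀ y ∈ Ioo a b, D.derivative.eval y ≠ 0) :
    ((∀ y ∈ Ioo a b, 0 < D.derivative.eval y) ∧ StrictMonoOn (fun y => D.eval y) (Icc a b)) ∨
    ((∀ y ∈ Ioo a b, D.derivative.eval y < 0) ∧ StrictAntiOn (fun y => D.eval y) (Icc a b)) := by
  have hconn : IsPreconnected (Ioo a b) := isPreconnected_Ioo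
  have hcont : ContinuousOn (fun y => D.derivative.eval y) (Ioo a b) :=
    D.derivative.continuous.continuousOn
  have hmid : (a + b) / 2 ∈ Ioo a b := ⟨by linarith, by linarith⟩
  rcases lt_or_gt_of_ne (hd _ hmid) with hneg | hpos
  · right
    have hall : ∀ y ∈ Ioo a b, D.derivative.eval y < 0 := by
      intro y hy
      by_contra h1
      push Not at h1
      obtain ⟨z, hz1, hz2⟩ := hconn.intermediate_value hmid hy hcont ⟨hneg.le, h1⟩
      exact hd z hz1 hz2
    refine ⟨hall, ?_⟩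
    apply strictAntiOn_of_deriv_neg (convex_Icc a b) D.continuous.continuousOn
    intro y hy
    rw [interior_Icc] at hy
    rw [Polynomial.deriv]
    exact hall y hy
  · left
    have hall : ∀ y ∈ Ioo a b, 0 < D.derivative.eval y := by
      intro y hy
      by_contra h1
      push Not at h1
      obtain ⟨z, hz1, hz2⟩ := hconn.intermediate_value hy hmid hcont ⟨h1, hpos.le⟩
      exact hd z hz1 hz2
    refine ⟨hall, ?_⟩
    apply strictMonoOn_of_deriv_pos (convex_Icc a b) D.continuous.continuousOn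
    intro y hy
    rw [interior_Icc] at hy
    rw [Polynomial.deriv]
    exact hall y hy

theorem band {s : ℕ} {D : ℝ[X]} (h : Disc s D) (hs : 1 ≤ s) {x : ℝ} (hx : |D.eval x| < 4) :
    ∃ a b, a < x ∧ x < b ∧
      ((D.eval a = 4 ∧ D.eval b = -4) ∨ (D.eval a = -4 ∧ D.eval b = 4)) ∧
      (∀ y ∈ Ioo a b, |D.eval y| < 4 ∧ D.derivative.eval y ≠ 0) := by
  obtain ⟨a, b, hax, hxb, ha, hb, hab⟩ := two_hits h hs hx
  have hlt : a < b := hax.trans hxb
  have hd : ∀ y ∈ Ioo a b, D.derivative.eval y ≠ 0 := by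
    intro y hy h0
    have h1 := crit h hs h0
    have h2 := hab y hy
    linarith
  refine ⟨a, b, hax, hxb, ?_, fun y hy => ⟨hab y hy, hd y hy⟩⟩
  have hne : D.eval a ≠ D.eval b := by
    rcases mono_or hlt hd with ⟨_, hm⟩ | ⟨_, hm⟩
    · exact (hm ⟨le_refl a, hlt.le⟩ ⟨hlt.le, le_refl b⟩ hlt).ne
    · exact (hm ⟨le_refl a, hlt.le⟩ ⟨hlt.le, le_refl b⟩ hlt).ne'
  rcases abs_cases (D.eval a) with ⟨h1, _⟩ | ⟨h1, _⟩ <;>
    rcases abs_cases (D.eval b) with ⟨h2, _⟩ | ⟨h2, _⟩
  · exfalso
    apply hne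
    linarith
  · left
    constructor <;> linarith
  · right
    constructor <;> linarith
  · exfalso
    apply hne
    linarith

theorem band_root {D : ℝ[X]} {a b : ℝ} (hab : a < b)
    (hv : (D.eval a = 4 ∧ D.eval b = -4) ∨ (D.eval a = -4 ∧ D.eval b = 4)) :
    ∃ e ∈ Ioo a b, D.eval e = 0 := by
  rcases hv with ⟨h1, h2⟩ | ⟨h1, h2⟩
  · obtain ⟨y, hy, hy0⟩ := intermediate_value_Ioo' hab.le (f := fun y => D.eval y)
      D.continuous.continuousOn (show (0 : ℝ) ∈ Ioo (D.eval b) (D.eval a) by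
        rw [h1, h2]; constructor <;> norm_num)
    exact ⟨y, hy, hy0⟩
  · obtain ⟨y, hy, hy0⟩ := intermediate_value_Ioo hab.le (f := fun y => D.eval y)
      D.continuous.continuousOn (show (0 : ℝ) ∈ Ioo (D.eval a) (D.eval b) by
        rw [h1, h2]; constructor <;> norm_num)
    exact ⟨y, hy, hy0⟩

theorem band_unique {D : ℝ[X]} {a b e e' : ℝ}
    (hd : ∀ y ∈ Ioo a b, D.derivative.eval y ≠ 0) (he : e ∈ Ioo a b) (he' : e' ∈ Ioo a b)
    (h : D.eval e = D.eval e') : e = e' := by
  have hab : a < b := he.1.trans he.2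
  rcases mono_or hab hd with ⟨_, hm⟩ | ⟨_, hm⟩
  · exact hm.injOn (Ioo_subset_Icc_self he) (Ioo_subset_Icc_self he') h
  · exact hm.injOn (Ioo_subset_Icc_self he) (Ioo_subset_Icc_self he') h

/-- a point with `|D| = 4` is a limit of points with `|D| < 4` -/
theorem near {s : ℕ} {D : ℝ[X]} (h : Disc s D) (hs : 1 ≤ s) {E : ℝ} (hE : |D.eval E| = 4)
    (hV : ∀ᶠ y in 𝓝 E, 4 ≤ |D.eval y|) : False := by
  obtain ⟨σ, hσ, hσE⟩ : ∃ σ : ℝ, (σ = 1 ∨ σ = -1) ∧ σ * D.eval E = 4 := by
    rcases abs_cases (D.eval E) with ⟨h1, _⟩ | ⟨h1, _⟩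
    · exact ⟨1, Or.inl rfl, by linarith⟩
    · exact ⟨-1, Or.inr rfl, by linarith⟩
  set P : ℝ[X] := C σ * D with hP
  have hPE : P.eval E = 4 := by rw [hP, eval_mul, eval_C, hσE]
  have habs : ∀ y, |P.eval y| = |D.eval y| := by
    intro y
    rw [hP, eval_mul, eval_C, abs_mul]
    rcases hσ with h1 | h1 <;> simp [h1]
  have hmin : IsLocalMin (fun y => P.eval y) E := by
    have hpos : ∀ᶠ y in 𝓝 E, 0 < P.eval y := by
      have hc : ContinuousAt (fun y => P.eval y) E := P.continuous.continuousAt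
      exact hc.eventually (lt_mem_nhds (show (0 : ℝ) < P.eval E by rw [hPE]; norm_num))
    filter_upwards [hpos, hV] with y hy1 hy2
    rw [← habs, abs_of_pos hy1] at hy2
    show P.eval E ≤ P.eval y
    rw [hPE]
    exact hy2
  have hd0 : P.derivative.eval E = 0 := by
    have := hmin.deriv_eq_zero
    rwa [Polynomial.deriv] at this
  have hσ0 : σ ≠ 0 := by
    rcases hσ with h1 | h1 <;> simp [h1]
  have hDd : D.derivative.eval E = 0 := by
    have h1 : P.derivative.eval E = σ * D.derivative.eval E := by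
      rw [hP, derivative_C_mul, eval_mul, eval_C]
    rw [h1] at hd0
    exact (mul_eq_zero.mp hd0).resolve_left hσ0
  have hdd := eval_der_der h hs hDd
  have hσ2 : σ * σ = 1 := by
    rcases hσ with h1 | h1 <;> simp [h1]
  have hPdd : P.derivative.derivative.eval E < 0 := by
    have h1 : P.derivative.derivative.eval E = σ * D.derivative.derivative.eval E := by
      rw [hP, derivative_C_mul, derivative_C_mul, eval_mul, eval_C]
    rw [h1]
    have h2 : D.eval E * D.derivative.derivative.eval E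
        = 4 * (σ * D.derivative.derivative.eval E) := by
      calc D.eval E * D.derivative.derivative.eval E
          = (σ * σ) * D.eval E * D.derivative.derivative.eval E := by rw [hσ2, one_mul]
        _ = (σ * D.eval E) * (σ * D.derivative.derivative.eval E) := by ring
        _ = _ := by rw [hσE]
    rw [h2] at hdd
    linarith
  have hder : deriv (fun y => P.eval y) = fun y => P.derivative.eval y := by
    funext y
    exact Polynomial.deriv P
  have hmax : IsLocalMax (fun y => P.eval y) E := by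
    apply isLocalMax_of_deriv_deriv_neg
    · rw [hder, Polynomial.deriv]
      exact hPdd
    · rw [hder]
      exact hd0
    · exact P.continuous.continuousAt
  have heq : (fun y => P.eval y) =ᶠ[𝓝 E] fun _ => (4 : ℝ) := by
    filter_upwards [hmin, hmax] with y h1 h2
    have h1' : P.eval E ≤ P.eval y := h1
    have h2' : P.eval y ≤ P.eval E := h2
    rw [hPE] at h1' h2'
    exact le_antisymm h2' h1'
  have h3 := heq.deriv
  have h4 := h3.deriv
  have h5 := h4.eq_of_nhds
  rw [hder, Polynomial.deriv] at h5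
  simp at h5
  rw [h5] at hPdd
  exact lt_irrefl _ hPdd

/-- D10 -/
theorem d10 : T_D10 := by
  intro s D h hs
  have hex : ∀ e : ℝ, ∃ a b : ℝ, D.eval e = 0 → a < e ∧ e < b ∧
      ((D.eval a = 4 ∧ D.eval b = -4) ∨ (D.eval a = -4 ∧ D.eval b = 4)) ∧
      (∀ y ∈ Ioo a b, |D.eval y| < 4 ∧ D.derivative.eval y ≠ 0) := by
    intro e
    by_cases he : D.eval e = 0
    · obtain ⟨a, b, hab⟩ := band h hs (x := e) (by rw [he]; norm_num)
      exact ⟨a, b, fun _ => hab⟩
    · exact ⟨0, 0, fun h0 => absurd h0 he⟩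
  choose α β hαβ using hex
  have habs4 : ∀ e, D.eval e = 0 → |D.eval (α e)| = 4 ∧ |D.eval (β e)| = 4 := by
    intro e he
    obtain ⟨_, _, h3, _⟩ := hαβ e he
    rcases h3 with ⟨h1, h2⟩ | ⟨h1, h2⟩ <;> rw [h1, h2] <;> norm_num
  have hlt : ∀ E, |D.eval E| < 4 → ∃ e, D.eval e = 0 ∧ E ∈ Icc (α e) (β e) := by
    intro E hE
    obtain ⟨a, b, hax, hxb, hv, hab⟩ := band h hs hE
    obtain ⟨e, he, he0⟩ := band_root (hax.trans hxb) hv
    refine ⟨e, he0, ?_⟩
    obtain ⟨h1, h2, h3, h4⟩ := hαβ e he0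
    obtain ⟨h5, h6⟩ := habs4 e he0
    constructor
    · by_contra hcon
      push Not at hcon
      have hmem : α e ∈ Ioo a b := ⟨by linarith, by linarith [he.2]⟩
      have := (hab _ hmem).1
      linarith
    · by_contra hcon
      push Not at hcon
      have hmem : β e ∈ Ioo a b := ⟨by linarith [he.1], by linarith⟩
      have := (hab _ hmem).1
      linarith
  refine ⟨α, β, hαβ, ?_, ?_⟩
  · intro e e' he he' hee
    obtain ⟨h1, h2, h3, h4⟩ := hαβ e he
    obtain ⟨h1', h2', h3', h4'⟩ := hαβ e' he'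
    obtain ⟨h5, h6⟩ := habs4 e he
    obtain ⟨h5', h6'⟩ := habs4 e' he'
    by_contra hcon
    push Not at hcon
    -- e' is not in the band of e
    have hA : e ≤ α e' := by
      by_contra h7
      push Not at h7
      have := band_unique (fun y hy => (h4' y hy).2) (e := e) (e' := e')
        ⟨h7, hee.trans h2'⟩ ⟨h1', h2'⟩ (by rw [he, he'])
      exact hee.ne this
    have hmem : α e' ∈ Ioo (α e) (β e) := ⟨by linarith, hcon⟩
    have := (h4 _ hmem).1
    linarith
  · intro E hE
    rcases hE.lt_or_eq with hE | hE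
    · exact hlt E hE
    · by_contra hcon
      push Not at hcon
      apply near h hs hE
      have hfin : {e : ℝ | D.eval e = 0}.Finite := by
        have hD0 : D ≠ 0 := h.mon.ne_zero
        apply (D.roots.toFinset.finite_toSet).subset
        intro e he
        simp [hD0]
        exact he
      have hclosed : IsClosed (⋃ e ∈ {e : ℝ | D.eval e = 0}, Icc (α e) (β e)) :=
        hfin.isClosed_biUnion fun e _ => isClosed_Icc
      have hEn : E ∈ (⋃ e ∈ {e : ℝ | D.eval e = 0}, Icc (α e) (β e))ᶜ := by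
        intro hmem
        simp only [mem_iUnion, Set.mem_ofPred_eq] at hmem
        obtain ⟨e, he, he2⟩ := hmem
        exact hcon e he he2
      filter_upwards [hclosed.isOpen_compl.mem_nhds hEn] with y hy
      by_contra h1
      push Not at h1
      obtain ⟨e, he, he2⟩ := hlt y h1
      apply hy
      simp only [mem_iUnion]
      exact ⟨e, he, he2⟩

end Pool.Agent.H80.AM
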