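import Pool.Agent.H80.AM.D10

/-! Outer and inner bounds for the bands: T_D11, T_D12 (helper80). -/

open Polynomial Set Filter Topology

namespace Pool.Agent.H80.AM

open Pool.Agent.H98.AM

theorem prod_le_exp {ι : Type*} (S : Finset ι) (u : ι → ℝ) (hu : ∀ j ∈ S, 0 < u j) :
    ∏ j ∈ S, u j ≤ Real.exp (∑ j ∈ S, (u j - 1)) := by
  rw [Real.exp_sum]
  apply Finset.prod_le_prod (fun j hj => (hu j hj).le)
  intro j _
  have := Real.add_one_le_exp (u j - 1)
  linarith

theorem exp_one_bd : Real.exp 1 < 2.7182818286 := Real.exp_one_lt_d9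

theorem der_at_root {ι : Type*} [DecidableEq ι] (S : Finset ι) (r : ι → ℝ) (j0 : ι)
    (hj : j0 ∈ S) (x : ℝ) :
    (∏ j ∈ S, (X - C (r j))).eval x = (x - r j0) * ∏ j ∈ S.erase j0, (x - r j) := by
  rw [← Finset.mul_prod_erase S _ hj, eval_mul, eval_prod]
  simp

theorem der_prod_ne {ι : Type*} [DecidableEq ι] (S : Finset ι) (r : ι → ℝ) (x : ℝ)
    (hx : ∀ j ∈ S, x - r j ≠ 0) :
    (∏ j ∈ S, (X - C (r j))).derivative.eval x
      = (∏ j ∈ S, (x - r j)) * ∑ j ∈ S, 1 / (x - r j) := by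
  induction S using Finset.induction_on with
  | empty => simp
  | insert a S ha ih =>
    have hx' : ∀ j ∈ S, x - r j ≠ 0 := fun j hj => hx j (Finset.mem_insert_of_mem hj)
    have hxa : x - r a ≠ 0 := hx a (Finset.mem_insert_self a S)
    rw [Finset.prod_insert ha, Finset.prod_insert ha, Finset.sum_insert ha, derivative_mul,
      eval_add, eval_mul, eval_mul, ih hx']
    simp [eval_prod]
    field_simp

/-- data at a root -/
theorem root_data {s : ℕ} {D : ℝ[X]} (h : Disc s D) {e : ℝ} (he : D.eval e = 0) :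
    ∃ (T : Finset (Fin s)) (r : Fin s → ℝ), D = (X - C e) * ∏ j ∈ T, (X - C (r j)) := by
  obtain ⟨r, hr⟩ := disc_prod h (t := 0) (by norm_num)
  rw [C_0, sub_zero] at hr
  have h1 : (∏ i, (X - C (r i))).eval e = 0 := by rw [← hr]; exact he
  rw [eval_prod] at h1
  obtain ⟨j0, hj0, h2⟩ := Finset.prod_eq_zero_iff.mp h1
  rw [eval_sub, eval_X, eval_C] at h2
  refine ⟨Finset.univ.erase j0, r, ?_⟩
  have h3 : e = r j0 := by linarith
  rw [hr, h3]
  exact (Finset.mul_prod_erase Finset.univ (fun i => X - C (r i)) hj0).symm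

section
variable {ι : Type*} [DecidableEq ι] {T : Finset ι} {r : ι → ℝ} {D : ℝ[X]} {e x : ℝ}

theorem data_eval (hD : D = (X - C e) * ∏ j ∈ T, (X - C (r j))) :
    D.eval x = (x - e) * ∏ j ∈ T, (x - r j) := by
  rw [hD, eval_mul, eval_prod]
  simp

theorem data_der (hD : D = (X - C e) * ∏ j ∈ T, (X - C (r j))) (hx : ∀ j ∈ T, x - r j ≠ 0) :
    D.derivative.eval x = (∏ j ∈ T, (x - r j)) * (1 + (x - e) * ∑ j ∈ T, 1 / (x - r j)) := by
  rw [hD, derivative_mul, eval_add, eval_mul, eval_mul, der_prod_ne T r x hx, eval_prod]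
  simp
  ring

theorem data_der_e (hD : D = (X - C e) * ∏ j ∈ T, (X - C (r j))) :
    D.derivative.eval e = ∏ j ∈ T, (e - r j) := by
  rw [hD, derivative_mul, eval_add, eval_mul, eval_mul, eval_prod]
  simp

/-- the outer bound on one side -/
theorem outer (hD : D = (X - C e) * ∏ j ∈ T, (X - C (r j)))
    (hT : ∀ j ∈ T, 0 < (e - r j) * (x - r j)) (hxe : x ≠ e)
    (hs : 0 ≤ D.eval x * (D.derivative.eval x * (x - e))) (hx4 : |D.eval x| = 4) :
    |x - e| ≤ 11 * om D e := by
  have hne : ∀ j ∈ T, x - r j ≠ 0 := fun j hj h0 => by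
    have := hT j hj
    rw [h0, mul_zero] at this
    exact lt_irrefl _ this
  have hne' : ∀ j ∈ T, e - r j ≠ 0 := fun j hj h0 => by
    have := hT j hj
    rw [h0, zero_mul] at this
    exact lt_irrefl _ this
  set B := ∏ j ∈ T, (x - r j) with hB
  set G := ∑ j ∈ T, 1 / (x - r j) with hG
  have hB0 : B ≠ 0 := Finset.prod_ne_zero_iff.mpr hne
  have h1 : D.eval x = (x - e) * B := data_eval hD
  have h2 : D.derivative.eval x = B * (1 + (x - e) * G) := data_der hD hne
  have h3 : D.derivative.eval e = ∏ j ∈ T, (e - r j) := data_der_e hD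
  have hxe' : x - e ≠ 0 := sub_ne_zero.mpr hxe
  have h4 : 0 ≤ 1 + (x - e) * G := by
    rw [h1, h2] at hs
    have h5 : 0 < ((x - e) * B) ^ 2 := by positivity
    have h6 : (x - e) * B * (B * (1 + (x - e) * G) * (x - e))
        = ((x - e) * B) ^ 2 * (1 + (x - e) * G) := by ring
    rw [h6] at hs
    exact nonneg_of_mul_nonneg_right hs h5
  -- the ratio
  have h7 : ∏ j ∈ T, ((e - r j) / (x - r j)) ≤ Real.exp 1 := by
    have h8 : ∀ j ∈ T, 0 < (e - r j) / (x - r j) := by
      intro j hj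
      have := hT j hj
      rcases lt_or_gt_of_ne (hne j hj) with h9 | h9
      · apply div_pos_of_neg_of_neg _ h9
        nlinarith
      · apply div_pos _ h9
        nlinarith
    refine (prod_le_exp T _ h8).trans (Real.exp_le_exp.mpr ?_)
    have h9 : ∑ j ∈ T, ((e - r j) / (x - r j) - 1) = -((x - e) * G) := by
      rw [hG, Finset.mul_sum, ← Finset.sum_neg_distrib]
      apply Finset.sum_congr rfl
      intro j hj
      have := hne j hj
      field_simp
      ring
    rw [h9]
    linarith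
  have h10 : (∏ j ∈ T, ((e - r j) / (x - r j))) * B = D.derivative.eval e := by
    rw [h3, hB, ← Finset.prod_mul_distrib]
    apply Finset.prod_congr rfl
    intro j hj
    exact div_mul_cancel₀ _ (hne j hj)
  have h11 : 0 ≤ ∏ j ∈ T, ((e - r j) / (x - r j)) := by
    apply Finset.prod_nonneg
    intro j hj
    have := hT j hj
    rcases lt_or_gt_of_ne (hne j hj) with h9 | h9
    · apply (div_pos_of_neg_of_neg _ h9).le
      nlinarith
    · apply (div_pos _ h9).le
      nlinarith
  have h12 : |D.derivative.eval e| * |x - e| ≤ 11 := by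
    rw [← h10, abs_mul, abs_of_nonneg h11]
    have h13 : |B| * |x - e| = 4 := by
      rw [← hx4, h1, abs_mul]
      ring
    have h14 := exp_one_bd
    calc (∏ j ∈ T, ((e - r j) / (x - r j))) * |B| * |x - e|
        = (∏ j ∈ T, ((e - r j) / (x - r j))) * 4 := by rw [mul_assoc, h13]
      _ ≤ Real.exp 1 * 4 := by linarith
      _ ≤ 11 := by linarith
  have h15 : 0 < |D.derivative.eval e| := by
    rw [h3]
    exact abs_pos.mpr (Finset.prod_ne_zero_iff.mpr hne')
  unfold om
  rw [mul_one_div, le_div_iff₀ h15]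
  linarith

/-- growth bound -/
theorem growth (hD : D = (X - C e) * ∏ j ∈ T, (X - C (r j)))
    (hT : ∀ j ∈ T, 0 < (e - r j) * (x - r j)) :
    |D.eval x| ≤ |D.derivative.eval e| * |x - e| * Real.exp ((x - e) * ∑ j ∈ T, 1 / (e - r j)) := by
  have hne' : ∀ j ∈ T, e - r j ≠ 0 := fun j hj h0 => by
    have := hT j hj
    rw [h0, zero_mul] at this
    exact lt_irrefl _ this
  have h8 : ∀ j ∈ T, 0 < (x - r j) / (e - r j) := by
    intro j hj
    have := hT j hj
    rcases lt_or_gt_of_ne (hne' j hj) with h9 | h9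
    · apply div_pos_of_neg_of_neg _ h9
      nlinarith
    · apply div_pos _ h9
      nlinarith
  have h1 : D.eval x = (x - e) * ∏ j ∈ T, (x - r j) := data_eval hD
  have h3 : D.derivative.eval e = ∏ j ∈ T, (e - r j) := data_der_e hD
  have h7 : ∏ j ∈ T, ((x - r j) / (e - r j)) ≤ Real.exp ((x - e) * ∑ j ∈ T, 1 / (e - r j)) := by
    refine (prod_le_exp T _ h8).trans (Real.exp_le_exp.mpr (le_of_eq ?_))
    rw [Finset.mul_sum]
    apply Finset.sum_congr rfl
    intro j hj
    have := hne' j hj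
    field_simp
    ring
  have h10 : (∏ j ∈ T, ((x - r j) / (e - r j))) * D.derivative.eval e = ∏ j ∈ T, (x - r j) := by
    rw [h3, ← Finset.prod_mul_distrib]
    apply Finset.prod_congr rfl
    intro j hj
    exact div_mul_cancel₀ _ (hne' j hj)
  have h11 : 0 ≤ ∏ j ∈ T, ((x - r j) / (e - r j)) :=
    Finset.prod_nonneg fun j hj => (h8 j hj).le
  rw [h1, ← h10, abs_mul, abs_mul, abs_of_nonneg h11]
  calc |x - e| * ((∏ j ∈ T, ((x - r j) / (e - r j))) * |D.derivative.eval e|)
      = |D.derivative.eval e| * |x - e| * ∏ j ∈ T, ((x - r j) / (e - r j)) := by ring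
    _ ≤ _ := mul_le_mul_of_nonneg_left h7 (by positivity)

end

theorem exp_bd {y : ℝ} (hy : y ≤ 1 / (2 * Real.exp 1)) : Real.exp y ≤ 1.21 := by
  have h1 : 1 / (2 * Real.exp 1) ≤ 0.184 := by
    have h2 := Real.exp_one_gt_d9
    rw [div_le_iff₀ (by positivity)]
    linarith
  have h3 : Real.exp y ≤ Real.exp 0.184 := Real.exp_le_exp.mpr (hy.trans h1)
  refine h3.trans ?_
  have h4 := Real.exp_bound' (x := 0.184) (by norm_num) (by norm_num) (n := 4) (by norm_num)
  refine h4.trans ?_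
  norm_num [Finset.sum_range_succ, Nat.factorial]

/-- all other roots are on the same side of `e` and of any point of the closed band -/
theorem same_side {s : ℕ} {D : ℝ[X]} {e a b : ℝ} (hs : D.derivative.eval e ≠ 0)
    (T : Finset (Fin s)) (r : Fin s → ℝ) (hD : D = (X - C e) * ∏ j ∈ T, (X - C (r j)))
    (hae : a < e) (heb : e < b)
    (hv : (D.eval a = 4 ∧ D.eval b = -4) ∨ (D.eval a = -4 ∧ D.eval b = 4))
    (hab : ∀ E ∈ Set.Ioo a b, |D.eval E| < 4 ∧ D.derivative.eval E ≠ 0) {x : ℝ}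
    (hx : x ∈ Icc a b) : ∀ j ∈ T, 0 < (e - r j) * (x - r j) := by
  intro j hj
  have he0 : D.eval e = 0 := by
    rw [hD]
    simp
  have hj0 : D.eval (r j) = 0 := by
    rw [data_eval hD, Finset.prod_eq_zero hj (sub_self _), mul_zero]
  have hne : e ≠ r j := by
    intro h0
    apply hs
    rw [data_der_e hD]
    exact Finset.prod_eq_zero hj (by rw [← h0, sub_self])
  have hnot : r j ∉ Icc a b := by
    rintro ⟨h1, h2⟩
    have h3 : r j ≠ a := by
      intro h0
      rw [h0] at hj0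
      rcases hv with ⟨h4, _⟩ | ⟨h4, _⟩ <;> rw [h4] at hj0 <;> norm_num at hj0
    have h3' : r j ≠ b := by
      intro h0
      rw [h0] at hj0
      rcases hv with ⟨_, h4⟩ | ⟨_, h4⟩ <;> rw [h4] at hj0 <;> norm_num at hj0
    have h5 : r j ∈ Ioo a b := ⟨lt_of_le_of_ne h1 h3.symm, lt_of_le_of_ne h2 h3'⟩
    exact hne (band_unique (fun y hy => (hab y hy).2) ⟨hae, heb⟩ h5 (by rw [he0, hj0]))
  obtain ⟨hx1, hx2⟩ := hx
  rcases lt_or_ge (r j) a with h | h
  · apply mul_pos <;> linarith
  · have h' : b < r j := by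
      by_contra h1
      push Not at h1
      exact hnot ⟨h, h1⟩
    apply mul_pos_of_neg_of_neg <;> linarith

theorem sign_left {D : ℝ[X]} {e a b : ℝ} (hae : a < e) (heb : e < b)
    (hv : (D.eval a = 4 ∧ D.eval b = -4) ∨ (D.eval a = -4 ∧ D.eval b = 4))
    (hab : ∀ E ∈ Set.Ioo a b, |D.eval E| < 4 ∧ D.derivative.eval E ≠ 0) :
    0 ≤ D.eval a * (D.derivative.eval a * (a - e)) ∧
    0 ≤ D.eval b * (D.derivative.eval b * (b - e)) := by
  have hlt : a < b := hae.trans heb
  have hcl : closure (Ioo a b) = Icc a b := closure_Ioo hlt.ne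
  have hcont : Continuous fun y => D.derivative.eval y := D.derivative.continuous
  rcases mono_or hlt (fun y hy => (hab y hy).2) with ⟨hp, hm⟩ | ⟨hp, hm⟩
  · have h1 : ∀ y ∈ Icc a b, 0 ≤ D.derivative.eval y := by
      have hcl2 : IsClosed {y | 0 ≤ D.derivative.eval y} := isClosed_le continuous_const hcont
      rw [← hcl]
      exact closure_minimal (fun y hy => (hp y hy).le) hcl2
    have hlt2 : D.eval a < D.eval b := hm ⟨le_refl a, hlt.le⟩ ⟨hlt.le, le_refl b⟩ hlt
    have ha := h1 a ⟨le_refl a, hlt.le⟩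
    have hb := h1 b ⟨hlt.le, le_refl b⟩
    rcases hv with ⟨h2, h3⟩ | ⟨h2, h3⟩
    · rw [h2, h3] at hlt2
      norm_num at hlt2
    · rw [h2, h3]
      constructor
      · nlinarith
      · have : 0 ≤ D.derivative.eval b * (b - e) := mul_nonneg hb (by linarith)
        linarith
  · have h1 : ∀ y ∈ Icc a b, D.derivative.eval y ≤ 0 := by
      have hcl2 : IsClosed {y | D.derivative.eval y ≤ 0} := isClosed_le hcont continuous_const
      rw [← hcl]
      exact closure_minimal (fun y hy => (hp y hy).le) hcl2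
    have hlt2 : D.eval b < D.eval a := hm ⟨le_refl a, hlt.le⟩ ⟨hlt.le, le_refl b⟩ hlt
    have ha := h1 a ⟨le_refl a, hlt.le⟩
    have hb := h1 b ⟨hlt.le, le_refl b⟩
    rcases hv with ⟨h2, h3⟩ | ⟨h2, h3⟩
    · rw [h2, h3]
      constructor
      · have : 0 ≤ D.derivative.eval a * (a - e) := mul_nonneg_of_nonpos_of_nonpos ha (by linarith)
        linarith
      · have : D.derivative.eval b * (b - e) ≤ 0 := mul_nonpos_of_nonpos_of_nonneg hb (by linarith)
        linarith
    · rw [h2, h3] at hlt2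
      norm_num at hlt2

theorem abs_ends {D : ℝ[X]} {a b : ℝ}
    (hv : (D.eval a = 4 ∧ D.eval b = -4) ∨ (D.eval a = -4 ∧ D.eval b = 4)) :
    |D.eval a| = 4 ∧ |D.eval b| = 4 := by
  rcases hv with ⟨h1, h2⟩ | ⟨h1, h2⟩ <;> rw [h1, h2] <;> norm_num

/-- D11 -/
theorem d11 : T_D11 := by
  intro s D e a b h hs he hae heb hv hab
  obtain ⟨T, r, hD⟩ := root_data h he
  have hde : D.derivative.eval e ≠ 0 := d1 s D h hs e he
  have hlt : a < b := hae.trans heb
  obtain ⟨ha4, hb4⟩ := abs_ends hv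
  obtain ⟨hsa, hsb⟩ := sign_left hae heb hv hab
  have h1 := outer hD (same_side hde T r hD hae heb hv hab (x := a) ⟨le_refl a, hlt.le⟩) hae.ne
    hsa ha4
  have h2 := outer hD (same_side hde T r hD hae heb hv hab (x := b) ⟨hlt.le, le_refl b⟩) heb.ne'
    hsb hb4
  rw [abs_sub_comm, abs_of_pos (by linarith)] at h1
  rw [abs_of_pos (by linarith)] at h2
  exact ⟨h1, h2⟩

/-- bound of `G'(e)` from an end point -/
theorem G_bd {A v g : ℝ} (hA : 0 < A) (hgv : v * g < 0) (h4 : 4 ≤ A * |v| * Real.exp (v * g)) :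
    |g| ≤ A / (4 * Real.exp 1) := by
  have h1 : v * g = -(|v| * |g|) := by
    rw [← abs_mul, abs_of_neg hgv]
    ring
  rw [h1] at h4
  have h2 := Real.add_one_le_exp (|v| * |g| - 1)
  have h3 : |v| * |g| ≤ Real.exp (|v| * |g|) / Real.exp 1 := by
    rw [← Real.exp_sub]
    linarith
  have h5 : |v| * |g| * Real.exp (-(|v| * |g|)) ≤ 1 / Real.exp 1 := by
    rw [Real.exp_neg, ← div_eq_mul_inv, div_le_div_iff₀ (by positivity) (by positivity)]
    rw [le_div_iff₀ (by positivity)] at h3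
    linarith
  rw [le_div_iff₀ (by positivity)]
  have h6 : |g| * 4 ≤ A * (|v| * |g| * Real.exp (-(|v| * |g|))) := by
    calc |g| * 4 ≤ |g| * (A * |v| * Real.exp (-(|v| * |g|))) :=
          mul_le_mul_of_nonneg_left h4 (abs_nonneg _)
      _ = _ := by ring
  have h7 : A * (|v| * |g| * Real.exp (-(|v| * |g|))) ≤ A * (1 / Real.exp 1) :=
    mul_le_mul_of_nonneg_left h5 hA.le
  have h8 : |g| * 4 ≤ A * (1 / Real.exp 1) := h6.trans h7
  have h9 : A * (1 / Real.exp 1) * Real.exp 1 = A := by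
    field_simp
  calc |g| * (4 * Real.exp 1) = |g| * 4 * Real.exp 1 := by ring
    _ ≤ A * (1 / Real.exp 1) * Real.exp 1 := mul_le_mul_of_nonneg_right h8 (by positivity)
    _ = A := h9

/-- D12 -/
theorem d12 : T_D12 := by
  intro s D e a b h hs he hae heb hv hab
  obtain ⟨T, r, hD⟩ := root_data h he
  have hde : D.derivative.eval e ≠ 0 := d1 s D h hs e he
  have hlt : a < b := hae.trans heb
  obtain ⟨ha4, hb4⟩ := abs_ends hv
  set A := |D.derivative.eval e| with hA
  have hA0 : 0 < A := abs_pos.mpr hde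
  set g := ∑ j ∈ T, 1 / (e - r j) with hg
  have hgr : ∀ x ∈ Icc a b, |D.eval x| ≤ A * |x - e| * Real.exp ((x - e) * g) := fun x hx =>
    growth hD (same_side hde T r hD hae heb hv hab hx)
  have hgb : |g| ≤ A / (4 * Real.exp 1) := by
    rcases lt_trichotomy g 0 with h1 | h1 | h1
    · apply G_bd hA0 (v := b - e) (by nlinarith)
      have := hgr b ⟨hlt.le, le_refl b⟩
      rwa [hb4] at this
    · rw [h1, abs_zero]
      positivity
    · apply G_bd hA0 (v := a - e) (by nlinarith)
      have := hgr a ⟨le_refl a, hlt.le⟩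
      rwa [ha4] at this
  have hom : om D e = 1 / A := rfl
  have hkey : ∀ x ∈ Icc a b, |x - e| ≤ 2 * om D e → |D.eval x| ≤ 1.21 * (A * |x - e|) := by
    intro x hx hxe
    refine (hgr x hx).trans ?_
    have h1 : (x - e) * g ≤ 1 / (2 * Real.exp 1) := by
      calc (x - e) * g ≤ |(x - e) * g| := le_abs_self _
        _ = |x - e| * |g| := abs_mul _ _
        _ ≤ (2 * om D e) * (A / (4 * Real.exp 1)) :=
            mul_le_mul hxe hgb (abs_nonneg _) (by rw [hom]; positivity)
        _ = 1 / (2 * Real.exp 1) := by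
            rw [hom]
            field_simp
            norm_num
    have h2 := exp_bd h1
    have h3 : 0 ≤ A * |x - e| := by positivity
    calc A * |x - e| * Real.exp ((x - e) * g) ≤ A * |x - e| * 1.21 :=
          mul_le_mul_of_nonneg_left h2 h3
      _ = _ := by ring
  have hlast : ∀ x ∈ Icc a b, |x - e| ≤ 2 * om D e → |D.eval x| < 4 := by
    intro x hx hxe
    refine (hkey x hx hxe).trans_lt ?_
    have h1 : A * |x - e| ≤ 2 := by
      calc A * |x - e| ≤ A * (2 * om D e) := mul_le_mul_of_nonneg_left hxe hA0.le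
        _ = 2 := by rw [hom]; field_simp
    linarith
  have hA1 : a < e - 2 * om D e := by
    by_contra h1
    push Not at h1
    have h2 := hlast a ⟨le_refl a, hlt.le⟩ (by
      rw [abs_sub_comm, abs_of_pos (by linarith)]
      linarith)
    rw [ha4] at h2
    exact lt_irrefl _ h2
  have hB1 : e + 2 * om D e < b := by
    by_contra h1
    push Not at h1
    have h2 := hlast b ⟨hlt.le, le_refl b⟩ (by
      rw [abs_of_pos (by linarith)]
      linarith)
    rw [hb4] at h2
    exact lt_irrefl _ h2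
  refine ⟨hA1, hB1, ?_⟩
  intro E hE
  have hmem : E ∈ Icc a b := by
    obtain ⟨h1, h2⟩ := abs_le.mp hE
    constructor <;> linarith
  refine (hkey E hmem hE).trans ?_
  rw [hom, div_div_eq_mul_div, div_one]
  have h3 : 0 ≤ A * |E - e| := by positivity
  nlinarith

/-- D2 -/
theorem d2 : T_D2 := by
  intro s D h hs
  obtain ⟨α, β, h1, h2, _⟩ := d10 s D h hs
  have key : ∀ e e', D.eval e = 0 → D.eval e' = 0 → e < e' →
      2 * (om D e + om D e') ≤ e' - e := by
    intro e e' he he' hlt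
    obtain ⟨a1, a2, a3, a4⟩ := h1 e he
    obtain ⟨b1, b2, b3, b4⟩ := h1 e' he'
    have c1 := d12 s D e (α e) (β e) h hs he a1 a2 a3 a4
    have c2 := d12 s D e' (α e') (β e') h hs he' b1 b2 b3 b4
    have c3 := h2 e e' he he' hlt
    linarith [c1.2.1, c2.1]
  intro e e' he he' hne
  rcases lt_or_gt_of_ne hne with h3 | h3
  · rw [abs_sub_comm, abs_of_pos (by linarith)]
    exact key e e' he he' h3
  · rw [abs_of_pos (by linarith)]
    have := key e' e he' he h3
    linarith

/-- D3 -/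
theorem d3 : T_D3 := by
  intro s D h hs E hE
  obtain ⟨α, β, h1, _, h3⟩ := d10 s D h hs
  obtain ⟨e, he, hEe⟩ := h3 E hE
  obtain ⟨a1, a2, a3, a4⟩ := h1 e he
  have c1 := d11 s D e (α e) (β e) h hs he a1 a2 a3 a4
  refine ⟨e, he, ?_⟩
  rw [abs_le]
  constructor <;> linarith [hEe.1, hEe.2, c1.1, c1.2]

end Pool.Agent.H80.AM
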